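import Pool.Agent.Lib.MP_021685_agTL3.M0

/-! LEAF MA2 (medium-, Mathlib only).  The basis can be rescaled so that the products `ψ (e i) (e (bar i))` are signs.

PROOF.  Choose an injection `r : ι → ℕ` (`Fintype.equivFin`); `r i ≠ r (bar i)`.  `ε i = 1` if `r i < r (bar i)`, `-1` otherwise.  `ψ (b i) (b (bar i)) ≠ 0` (otherwise `ψ (b i)` vanishes on the basis, `h0`, `hnd`, `b i ≠ 0`).
`t i = 1` if `r i < r (bar i)`, otherwise `t i = (ψ (b (bar i)) (b i))⁻¹` (a unit).  If `r i < r (bar i)`: `ψ (e i) (e (bar i)) = 1 * t (bar i) * ψ (b i) (b (bar i)) = 1 = ε i`.  If not, `r (bar i) < r i` and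
`ψ (e i) (e (bar i)) = - ψ (e (bar i)) (e i) = -1` (the form is skew: `halt` for `u + v`).  `Basis.unitsSMul_apply`. -/

set_option autoImplicit false

namespace TLL

open Module Function

theorem exists_scaling {H ι : Type} [AddCommGroup H] [Module ℂ H] [Fintype ι] [DecidableEq ι]
    {ψ : H →ₗ[ℂ] H →ₗ[ℂ] ℂ} (halt : ∀ u, ψ u u = 0) (hnd : ∀ u, (∀ v, ψ u v = 0) → u = 0) (b : Basis ι ℂ H)
    (bar : ι → ι) (hbb : ∀ i, bar (bar i) = i) (hbn : ∀ i, bar i ≠ i)
    (h0 : ∀ i j, ψ (b i) (b j) ≠ 0 → j = bar i) :
    ∃ (ε : ι → ℂ) (t : ι → ℂˣ), (∀ i, ε i * ε i = 1) ∧ (∀ i, (starRingEnd ℂ) (ε i) = ε i) ∧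
      (∀ i, ε (bar i) = - ε i) ∧
      ∀ i j, ψ (b.unitsSMul t i) (b.unitsSMul t j) = if j = bar i then ε i else 0 := by
  classical
  have hskew : ∀ u v, ψ u v = - ψ v u := by
    intro u v
    have h := halt (u + v)
    simp only [map_add, LinearMap.add_apply, halt, zero_add, add_zero] at h
    exact eq_neg_of_add_eq_zero_right h
  have hne : ∀ i, ψ (b i) (b (bar i)) ≠ 0 := by
    intro i hi
    have hz : ψ (b i) = 0 := by
      apply b.ext
      intro j
      by_contra hj
      rw [LinearMap.zero_apply] at hj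
      have hj2 := h0 i j hj
      rw [hj2] at hj
      exact hj hi
    exact b.ne_zero i (hnd (b i) (fun v => by rw [hz, LinearMap.zero_apply]))
  let r : ι → ℕ := fun i => (Fintype.equivFin ι i : ℕ)
  have hr : ∀ i, r i ≠ r (bar i) := by
    intro i h
    have h1 : Fintype.equivFin ι i = Fintype.equivFin ι (bar i) := Fin.ext h
    exact hbn i ((Fintype.equivFin ι).injective h1).symm
  have hne2 : ∀ i, ψ (b (bar i)) (b i) ≠ 0 := by
    intro i
    have h := hne (bar i)
    rwa [hbb] at h
  refine ⟨fun i => if r i < r (bar i) then 1 else -1,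
    fun i => if r i < r (bar i) then 1 else (Units.mk0 (ψ (b (bar i)) (b i)) (hne2 i))⁻¹, ?_, ?_, ?_, ?_⟩
  · intro i
    by_cases h : r i < r (bar i)
    · simp only [if_pos h, mul_one]
    · simp only [if_neg h, mul_neg, mul_one, neg_neg]
  · intro i
    by_cases h : r i < r (bar i)
    · simp only [if_pos h, map_one]
    · simp only [if_neg h, map_neg, map_one]
  · intro i
    by_cases h : r i < r (bar i)
    · have h2 : ¬ (r (bar i) < r (bar (bar i))) := by rw [hbb]; omega
      simp only [if_pos h, if_neg h2]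
    · have h2 : r (bar i) < r (bar (bar i)) := by
        rw [hbb]
        have := hr i
        omega
      simp only [if_neg h, if_pos h2, neg_neg]
  · intro i j
    by_cases hj : j = bar i
    · subst hj
      rw [if_pos rfl]
      simp only [Basis.unitsSMul_apply, Units.smul_def, map_smul, LinearMap.smul_apply, smul_eq_mul]
      by_cases h : r i < r (bar i)
      · have h2 : ¬ (r (bar i) < r (bar (bar i))) := by rw [hbb]; omega
        rw [if_pos h, if_neg h2, if_pos h]
        rw [Units.val_inv_eq_inv_val, Units.val_mk0, Units.val_one, hbb]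
        field_simp [hne i]
      · have h2 : r (bar i) < r (bar (bar i)) := by
          rw [hbb]
          have := hr i
          omega
        rw [if_neg h, if_pos h2, if_neg h]
        rw [Units.val_inv_eq_inv_val, Units.val_mk0, Units.val_one, hskew (b i) (b (bar i))]
        field_simp [hne2 i]
    · rw [if_neg hj]
      simp only [Basis.unitsSMul_apply, Units.smul_def, map_smul, LinearMap.smul_apply, smul_eq_mul]
      have hz : ψ (b i) (b j) = 0 := by
        by_contra hc
        exact hj (h0 i j hc)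
      rw [hz]
      ring

end TLL
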