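import Pool.Agent.Lib.MP_021685_agTL3.M0

/-! LEAF MI (medium).  The first fundamental theorem for multilinear forms.

PROOF.  `FFT.mem_span_of_inv` (`MP_802513_agJ/JFFT2.lean`, `S = Fin k`, `A = Unit`, `I = ι`) puts `coords e τ` in the span of the `G` with `FFT.IsP Y univ G`.  The map `coords e` is linear and injective in `τ` (`Basis.ext_multilinear`; note that
`j ↦ (a ↦ (j a).2)` is a bijection of `Fin k → Unit × ι` with `Fin k → ι`), so it is enough (`Submodule.span_induction` in the form: if `coords e τ = ∑ c x * G x` with `G x = coords e (τ x)`, `τ x` a product, then `τ = ∑ c x • τ x`; for example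
show that the span of the `G` is contained in the image under the linear map `coords` of `Submodule.span ℂ (Products ..)`) that every `G` is `coords e τ'` with `τ' ∈ Products ..`.  `FFT.IsP.exists_form` gives `n`, `f : Fin n → Fin 2 → Fin k`,
injective and surjective, `p : Fin n → Φ × Unit × Unit` with `G j = ∏ r, beta Y (p r) (j (f r 0)) (j (f r 1))`; `m = n`, the bijection `r ↦ f r 0`, `f r 1` on the two summands (`Equiv.ofBijective`), the classes `(p r).1`; the product
form `τ' v = ∏ i, pair .. (f i) (v ..) (v ..)` is multilinear (as in `MP_021685_agTL2/N1.lean` or `ZN2.lean`, or `MultilinearMap.mkPiAlgebra`-like, or `MultilinearMap.domDomCongr` of a product; see also `TI`), and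
`pair Y.bar Y.ε Y.φ e f (e x) (e y) = beta Y (f, (), ()) ((), x) ((), y)` (`pair_apply`, `Basis.coord_apply`, `Basis.repr_self`, only `i = x` remains). -/

set_option autoImplicit false

namespace TLL

open Module Function Pool.Agent.Lib.MP_802513_agJ

/-- The coordinates, as a linear map. -/
private def MI_map {H ι : Type} [AddCommGroup H] [Module ℂ H] (e : ι → H) (k : ℕ) :
    MultilinearMap ℂ (fun _ : Fin k => H) ℂ →ₗ[ℂ] ((Fin k → Unit × ι) → ℂ) where
  toFun τ := coords e τ
  map_add' τ τ' := by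
    funext j
    rfl
  map_smul' a τ := by
    funext j
    rfl

private theorem MI_map_apply {H ι : Type} [AddCommGroup H] [Module ℂ H] (e : ι → H) {k : ℕ}
    (τ : MultilinearMap ℂ (fun _ : Fin k => H) ℂ) : MI_map e k τ = coords e τ := rfl

private theorem MI_inj {H ι : Type} [AddCommGroup H] [Module ℂ H] (e : Basis ι ℂ H) {k : ℕ}
    {τ τ' : MultilinearMap ℂ (fun _ : Fin k => H) ℂ} (h : coords e τ = coords e τ') : τ = τ' := by
  refine Basis.ext_multilinear (fun _ => e) fun v => ?_
  exact congrFun h fun a => ((), v a)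

private theorem MI_key {H : Type} [AddCommGroup H] [Module ℂ H] {m k : ℕ} (b : Fin m → H →ₗ[ℂ] H →ₗ[ℂ] ℂ)
    (r : Fin m ⊕ Fin m ≃ Fin k) [DecidableEq (Fin k)] (v : Fin k → H) (a : Fin k) :
    ∃ L : H →ₗ[ℂ] ℂ, ∀ z, ∏ i, b i (Function.update v a z (r (Sum.inl i)))
      (Function.update v a z (r (Sum.inr i))) = L z := by
  obtain ⟨s, rfl⟩ := r.surjective a
  rcases s with i0 | i0
  · refine ⟨(∏ i ∈ Finset.univ.erase i0, b i (v (r (Sum.inl i))) (v (r (Sum.inr i)))) •
      (b i0).flip (v (r (Sum.inr i0))), fun z => ?_⟩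
    rw [← Finset.mul_prod_erase Finset.univ _ (Finset.mem_univ i0), LinearMap.smul_apply, LinearMap.flip_apply,
      smul_eq_mul, mul_comm, Function.update_self,
      Function.update_of_ne (fun h => Sum.inr_ne_inl (r.injective h))]
    congr 1
    refine Finset.prod_congr rfl fun i hi => ?_
    rw [Function.update_of_ne (fun h => Finset.ne_of_mem_erase hi (Sum.inl_injective (r.injective h))),
      Function.update_of_ne (fun h => Sum.inr_ne_inl (r.injective h))]
  · refine ⟨(∏ i ∈ Finset.univ.erase i0, b i (v (r (Sum.inl i))) (v (r (Sum.inr i)))) •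
      b i0 (v (r (Sum.inl i0))), fun z => ?_⟩
    rw [← Finset.mul_prod_erase Finset.univ _ (Finset.mem_univ i0), LinearMap.smul_apply,
      smul_eq_mul, mul_comm, Function.update_self,
      Function.update_of_ne (fun h => Sum.inl_ne_inr (r.injective h))]
    congr 1
    refine Finset.prod_congr rfl fun i hi => ?_
    rw [Function.update_of_ne (fun h => Sum.inl_ne_inr (r.injective h)),
      Function.update_of_ne (fun h => Finset.ne_of_mem_erase hi (Sum.inr_injective (r.injective h)))]

private theorem MI_prod {H : Type} [AddCommGroup H] [Module ℂ H] {m k : ℕ} (b : Fin m → H →ₗ[ℂ] H →ₗ[ℂ] ℂ)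
    (r : Fin m ⊕ Fin m ≃ Fin k) : ∃ τ : MultilinearMap ℂ (fun _ : Fin k => H) ℂ,
      ∀ v, τ v = ∏ i, b i (v (r (Sum.inl i))) (v (r (Sum.inr i))) := by
  refine ⟨{ toFun := fun v => ∏ i, b i (v (r (Sum.inl i))) (v (r (Sum.inr i)))
            map_update_add' := ?_
            map_update_smul' := ?_ }, fun v => rfl⟩
  · intro _ v a x y
    obtain ⟨L, hL⟩ := MI_key b r v a
    rw [hL, hL, hL, map_add]
  · intro _ v a c x
    obtain ⟨L, hL⟩ := MI_key b r v a
    rw [hL, hL, map_smul]

private theorem MI_pair {H ι Φ : Type} [AddCommGroup H] [Module ℂ H] [Fintype ι] [DecidableEq ι] [DecidableEq Φ]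
    (Y : FFT.Sys ι Φ) (e : Basis ι ℂ H) (p : Φ × Unit × Unit) (x y : Unit × ι) :
    pair Y.bar Y.ε Y.φ e p.1 (e x.2) (e y.2) = FFT.beta Y p x y := by
  rw [pair_apply, Finset.sum_eq_single x.2]
  · unfold FFT.beta
    rw [Basis.coord_apply, Basis.coord_apply, Basis.repr_self, Basis.repr_self, Finsupp.single_eq_same, one_mul]
    by_cases h1 : Y.φ x.2 = p.1
    · rw [if_pos h1]
      by_cases h2 : y.2 = Y.bar x.2
      · rw [if_pos ⟨rfl, rfl, h1, h2⟩, h2, Finsupp.single_eq_same, mul_one]
      · rw [if_neg (fun h => h2 h.2.2.2), Finsupp.single_eq_of_ne (fun h => h2 h.symm), mul_zero]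
    · rw [if_neg h1, if_neg (fun h => h1 h.2.2.1)]
  · intro i _ hi
    rw [Basis.coord_apply, Basis.repr_self, Finsupp.single_eq_of_ne hi, zero_mul, mul_zero, ite_self]
  · intro h
    exact absurd (Finset.mem_univ _) h

theorem mem_products {H ι Φ : Type} [AddCommGroup H] [Module ℂ H] [Fintype ι] [DecidableEq ι] [DecidableEq Φ]
    (Y : FFT.Sys ι Φ) (e : Basis ι ℂ H) {k : ℕ} (τ : MultilinearMap ℂ (fun _ : Fin k => H) ℂ)
    (h : FFT.Inv Y Finset.univ (coords e τ)) :
    τ ∈ Submodule.span ℂ (Products Y.bar Y.ε Y.φ e k) := by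
  classical
  have h1 := FFT.mem_span_of_inv (coords e τ) h
  have h2 : Submodule.span ℂ {G : (Fin k → Unit × ι) → ℂ | FFT.IsP Y Finset.univ G} ≤
      (Submodule.span ℂ (Products Y.bar Y.ε Y.φ e k)).map (MI_map e k) := by
    refine Submodule.span_le.2 fun G hG => ?_
    obtain ⟨n, f, p, g1, g2, g3⟩ := FFT.IsP.exists_form hG
    have hbij : Function.Bijective (fun x : Fin n ⊕ Fin n => Sum.elim (fun i => f i 0) (fun i => f i 1) x) := by
      constructor
      · rintro (i | i) (i' | i') hi
        · rw [(g1 _ _ _ _ hi).1]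
        · exact absurd (g1 _ _ _ _ hi).2 (by decide)
        · exact absurd (g1 _ _ _ _ hi).2 (by decide)
        · rw [(g1 _ _ _ _ hi).1]
      · intro s
        obtain ⟨i, ε, hi⟩ := (g2 s).1 (Finset.mem_univ s)
        fin_cases ε
        · exact ⟨Sum.inl i, hi⟩
        · exact ⟨Sum.inr i, hi⟩
    obtain ⟨τ', hτ'⟩ := MI_prod (fun i => pair Y.bar Y.ε Y.φ e (p i).1) (Equiv.ofBijective _ hbij)
    refine ⟨τ', Submodule.subset_span ⟨n, Equiv.ofBijective _ hbij, fun i => (p i).1, hτ'⟩, ?_⟩
    funext j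
    rw [MI_map_apply, g3 j]
    unfold coords
    rw [hτ']
    refine Finset.prod_congr rfl fun i _ => ?_
    exact MI_pair Y e (p i) (j (f i 0)) (j (f i 1))
  obtain ⟨τ', h3, h4⟩ := h2 h1
  rw [← MI_inj e h4]
  exact h3

end TLL
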