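import Pool.Agent.Lib.MP_021685_agTL3.M0
import Pool.Agent.Lib.MP_021685_agTL3.MO

/-! LEAF MS (medium-).  The relation `Kills` is symmetric.

PROOF.  Write `U i l t j = ε l * op univ l i t j - ε i * op univ (bar i) (bar l) t j`, so that `Kills bar ε t i l` says `U i l t = 0`.  By `op_adj` (`MP_802513_ag/WFFT.lean`; `ε` is real) `∑ j, conj (X j) * U i l T j = ∑ j, conj (ε l * op univ i l X j
- ε i * op univ (bar l) (bar i) X j) * T j`, and `ε i * ε l` times the operator in the bracket is `U l i` (`ε_sq`).  So `∑ j, conj (U l i t j) * U l i t j = ε i * ε l * ∑ j, conj (..)`: precisely, with `X = U l i t`,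
`∑ j, conj (U l i t j) * (U l i t j) = (ε i * ε l) * ∑ j, conj (U i l (U l i t) j) * t j` (or its conjugate).  `U i l (U l i t) = U i l (U l i t) - U l i (U i l t)` (`U i l t = 0`), and by `op_comm` (four brackets; `bar` is an
involution without fixed points, so the brackets between `op l i` and `op (bar l) (bar i)` contribute only if `l = bar i` ..) this is a combination of `op m m t`, `m ∈ {i, l, bar i, bar l}`, of the form
`a * (op i i t - op (bar i) (bar i) t) + a' * (op l l t - op (bar l) (bar l) t)`, zero by `hd`.  (If `l = bar i`: `U i (bar i) = -2 ε i op (bar i) i`, `U (bar i) i = 2 ε i op i (bar i)`, do this case separately.  If `l = i` there is nothing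
to do.)  So `∑ j, |U l i t j| ^ 2 = 0` and `U l i t = 0`. -/

set_option autoImplicit false

namespace TLL

open Function Pool.Agent.Lib.MP_802513_ag.W.FFT

private theorem MS_op_lin {S ι : Type} [Fintype S] [DecidableEq S] [Fintype ι] [DecidableEq ι]
    (l i : ι) (a b : ℂ) (A B : (S → Unit × ι) → ℂ) (j : S → Unit × ι) :
    op Finset.univ l i (fun j => a * A j - b * B j) j =
      a * op Finset.univ l i A j - b * op Finset.univ l i B j := by
  unfold op
  rw [Finset.mul_sum, Finset.mul_sum, ← Finset.sum_sub_distrib]
  refine Finset.sum_congr rfl fun s _ => ?_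
  split_ifs
  · rfl
  · ring

private theorem MS_op_mul {S ι : Type} [Fintype S] [DecidableEq S] [Fintype ι] [DecidableEq ι]
    (l i : ι) (a : ℂ) (A : (S → Unit × ι) → ℂ) (j : S → Unit × ι) :
    op Finset.univ l i (fun j => a * A j) j = a * op Finset.univ l i A j := by
  unfold op
  rw [Finset.mul_sum]
  refine Finset.sum_congr rfl fun s _ => ?_
  split_ifs
  · rfl
  · ring

private theorem MS_zero {S ι : Type} [Fintype S] [DecidableEq S] [Fintype ι] [DecidableEq ι]
    (X : (S → Unit × ι) → ℂ) (h : ∑ j, (starRingEnd ℂ) (X j) * X j = 0) : ∀ j, X j = 0 := by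
  have h1 : ∑ j, Complex.normSq (X j) = 0 := by
    have h2 : ((∑ j, Complex.normSq (X j) : ℝ) : ℂ) = 0 := by
      rw [← h, Complex.ofReal_sum]
      exact Finset.sum_congr rfl fun j _ => Complex.normSq_eq_conj_mul_self
    exact_mod_cast h2
  intro j
  have h3 := (Finset.sum_eq_zero_iff_of_nonneg fun j _ => Complex.normSq_nonneg (X j)).1 h1 j
    (Finset.mem_univ j)
  exact Complex.normSq_eq_zero.1 h3

theorem kills_symm {S ι : Type} [Fintype S] [DecidableEq S] [Fintype ι] [DecidableEq ι] {bar : ι → ι} {ε : ι → ℂ}
    (hbb : ∀ i, bar (bar i) = i) (hbn : ∀ i, bar i ≠ i) (hsq : ∀ i, ε i * ε i = 1)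
    (hcj : ∀ i, (starRingEnd ℂ) (ε i) = ε i) (hεb : ∀ i, ε (bar i) = - ε i) {t : (S → Unit × ι) → ℂ}
    (hd : ∀ m, Kills bar ε t m m) {i l : ι} (h : Kills bar ε t i l) : Kills bar ε t l i := by
  have hdd : ∀ m j, op Finset.univ m m t j = op Finset.univ (bar m) (bar m) t j := by
    intro m j
    have h1 := hd m j
    have h2 := hsq m
    linear_combination (ε m) * h1 - (op Finset.univ m m t j - op Finset.univ (bar m) (bar m) t j) * h2
  have hA : op Finset.univ l i t = fun j => (ε l * ε i) * op Finset.univ (bar i) (bar l) t j := by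
    funext j
    have h1 := h j
    have h2 := hsq l
    linear_combination (ε l) * h1 - (op Finset.univ l i t j) * h2
  let X : (S → Unit × ι) → ℂ := fun j =>
    ε i * op Finset.univ i l t j - ε l * op Finset.univ (bar l) (bar i) t j
  have hV : ∀ j, ε i * op Finset.univ l i X j - ε l * op Finset.univ (bar i) (bar l) X j = 0 := by
    intro j
    have e1 : op Finset.univ l i X j = ε i * op Finset.univ l i (op Finset.univ i l t) j -
        ε l * op Finset.univ l i (op Finset.univ (bar l) (bar i) t) j := MS_op_lin l i _ _ _ _ j
    have e2 : op Finset.univ (bar i) (bar l) X j =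
        ε i * op Finset.univ (bar i) (bar l) (op Finset.univ i l t) j -
        ε l * op Finset.univ (bar i) (bar l) (op Finset.univ (bar l) (bar i) t) j :=
      MS_op_lin (bar i) (bar l) _ _ _ _ j
    have c1 := op_comm Finset.univ l i i l t j
    have c2 := op_comm Finset.univ l i (bar l) (bar i) t j
    have c3 := op_comm Finset.univ (bar i) (bar l) i l t j
    have c4 := op_comm Finset.univ (bar i) (bar l) (bar l) (bar i) t j
    rw [if_pos rfl, if_pos rfl] at c1 c4
    have d1 : op Finset.univ i l (op Finset.univ l i t) j =
        (ε l * ε i) * op Finset.univ i l (op Finset.univ (bar i) (bar l) t) j := by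
      rw [hA]
      exact MS_op_mul i l _ _ j
    have d2 : op Finset.univ (bar l) (bar i) (op Finset.univ l i t) j =
        (ε l * ε i) * op Finset.univ (bar l) (bar i) (op Finset.univ (bar i) (bar l) t) j := by
      rw [hA]
      exact MS_op_mul (bar l) (bar i) _ _ j
    have b2 : ((if i = bar l then op Finset.univ l (bar i) t j else 0) -
        (if bar i = l then op Finset.univ (bar l) i t j else 0)) = 0 := by
      by_cases hb : bar i = l
      · have hb' : i = bar l := by rw [← hb, hbb]
        rw [if_pos hb', if_pos hb, hb, ← hb', hdd l j, ← hb', sub_self]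
      · have hb' : ¬ i = bar l := fun g => hb (by rw [g, hbb])
        rw [if_neg hb', if_neg hb, sub_self]
    have b3 : ((if bar l = i then op Finset.univ (bar i) l t j else 0) -
        (if l = bar i then op Finset.univ i (bar l) t j else 0)) = 0 := by
      by_cases hb : bar i = l
      · have hb' : bar l = i := by rw [← hb, hbb]
        rw [if_pos hb', if_pos hb.symm, hb, hb', hdd l j, hb', sub_self]
      · have hb' : ¬ bar l = i := fun g => hb (by rw [← g, hbb])
        rw [if_neg hb', if_neg (fun g => hb g.symm), sub_self]
    rw [b2] at c2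
    rw [b3] at c3
    have hl := hdd l j
    have hi := hdd i j
    have si := hsq i
    have sl := hsq l
    rw [e1, e2]
    rw [d1] at c1
    rw [d2] at c2
    generalize op Finset.univ l i (op Finset.univ i l t) j = A1 at *
    generalize op Finset.univ l i (op Finset.univ (bar l) (bar i) t) j = A2 at *
    generalize op Finset.univ (bar i) (bar l) (op Finset.univ i l t) j = A3 at *
    generalize op Finset.univ (bar i) (bar l) (op Finset.univ (bar l) (bar i) t) j = A4 at *
    generalize op Finset.univ i l (op Finset.univ (bar i) (bar l) t) j = B3 at *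
    generalize op Finset.univ (bar l) (bar i) (op Finset.univ (bar i) (bar l) t) j = B4 at *
    generalize op Finset.univ l l t j = L at *
    generalize op Finset.univ (bar l) (bar l) t j = L' at *
    generalize op Finset.univ i i t j = I at *
    generalize op Finset.univ (bar i) (bar i) t j = I' at *
    linear_combination c1 - (ε i * ε l) * c2 - (ε i * ε l) * c3 + c4 + hl - hi + (A1 - ε l * ε l * B4) * si +
      (A4 - B4) * sl
  have hsum : ∑ j, (starRingEnd ℂ) (X j) * X j = 0 := by
    have e1 := op_adj Finset.univ i l X t
    have e2 := op_adj Finset.univ (bar l) (bar i) X t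
    have e3 : ∑ j, (starRingEnd ℂ) (X j) * X j =
        ε i * (∑ j, (starRingEnd ℂ) (X j) * op Finset.univ i l t j) -
        ε l * (∑ j, (starRingEnd ℂ) (X j) * op Finset.univ (bar l) (bar i) t j) := by
      rw [Finset.mul_sum, Finset.mul_sum, ← Finset.sum_sub_distrib]
      refine Finset.sum_congr rfl fun j _ => ?_
      have : X j = ε i * op Finset.univ i l t j - ε l * op Finset.univ (bar l) (bar i) t j := rfl
      calc (starRingEnd ℂ) (X j) * X j = (starRingEnd ℂ) (X j) *
          (ε i * op Finset.univ i l t j - ε l * op Finset.univ (bar l) (bar i) t j) := by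
            rw [← this]
        _ = _ := by ring
    rw [e3, e1, e2, Finset.mul_sum, Finset.mul_sum, ← Finset.sum_sub_distrib]
    refine Finset.sum_eq_zero fun j _ => ?_
    have e4 := congrArg (starRingEnd ℂ) (hV j)
    rw [map_sub, map_mul, map_mul, hcj, hcj, map_zero] at e4
    linear_combination (t j) * e4
  intro j
  have h0 := MS_zero X hsum j
  exact sub_eq_zero.1 h0

end TLL
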