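import Pool.Agent.Lib.MP_021685_agTL3.M0
import Pool.Agent.Lib.MP_021685_agTL3.MO

/-! LEAF MT (medium-).  The relation `Kills` is transitive.

PROOF.  If `i = m`: `hd`.  Let `i ≠ m`.  Write `U i l t j = ε l * op univ l i t j - ε i * op univ (bar i) (bar l) t j` (`Kills bar ε t i l` says `U i l t = 0`).  `0 = U i l (U l m t) - U l m (U i l t)`, and by `op_comm` (four brackets)
this is `- ε l * U i m t` if `l ≠ bar i` and `m ≠ bar l`; `2 * ε i * U i m t` if `l = bar i` (then `m ≠ bar l = i`); `2 * ε m * U i m t` if `m = bar l` (then `l ≠ bar i`, as `i ≠ m`): indeed the brackets are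
`[op l i, op m l] = - op m i`, `[op l i, op (bar l) (bar m)] = [i = bar l] op l (bar m) - [bar m = l] op (bar l) i`, `[op (bar i) (bar l), op m l] = [bar l = m] op (bar i) l - [l = bar i] op m (bar l)`,
`[op (bar i) (bar l), op (bar l) (bar m)] = op (bar i) (bar m)`, with the coefficients `ε l ε m`, `- ε l ε l`, `- ε i ε m`, `ε i ε l` (and `ε (bar i) = - ε i`, `ε i * ε i = 1`).  (`op` of the zero function is zero, `op` is linear.) -/

set_option autoImplicit false

namespace TLL

open Function Pool.Agent.Lib.MP_802513_ag.W.FFT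

private theorem MT_lin {S ι : Type} [Fintype S] [DecidableEq S] [Fintype ι] [DecidableEq ι] (l i : ι) (a b : ℂ)
    (T T' : (S → Unit × ι) → ℂ) (j : S → Unit × ι) :
    op Finset.univ l i (fun j => a * T j - b * T' j) j =
      a * op Finset.univ l i T j - b * op Finset.univ l i T' j := by
  unfold op
  rw [Finset.mul_sum, Finset.mul_sum, ← Finset.sum_sub_distrib]
  refine Finset.sum_congr rfl fun s _ => ?_
  split_ifs
  · rfl
  · rw [mul_zero, mul_zero, sub_zero]

private theorem MT_zero {S ι : Type} [Fintype S] [DecidableEq S] [Fintype ι] [DecidableEq ι] (l i : ι)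
    (T : (S → Unit × ι) → ℂ) (hT : ∀ j, T j = 0) (j : S → Unit × ι) : op Finset.univ l i T j = 0 := by
  unfold op
  refine Finset.sum_eq_zero fun s _ => ?_
  split_ifs
  · exact hT _
  · rfl

theorem kills_trans {S ι : Type} [Fintype S] [DecidableEq S] [Fintype ι] [DecidableEq ι] {bar : ι → ι} {ε : ι → ℂ}
    (hbb : ∀ i, bar (bar i) = i) (hbn : ∀ i, bar i ≠ i) (hsq : ∀ i, ε i * ε i = 1)
    (hεb : ∀ i, ε (bar i) = - ε i) {t : (S → Unit × ι) → ℂ} (hd : ∀ m, Kills bar ε t m m) {i l m : ι}
    (h : Kills bar ε t i l) (h' : Kills bar ε t l m) : Kills bar ε t i m := by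
  by_cases him : i = m
  · rw [him]
    exact hd m
  intro j
  have hinj : bar m ≠ bar i := by
    intro h1
    apply him
    rw [← hbb i, ← hbb m, h1]
  have z1 : ∀ j, (fun j => ε l * op Finset.univ l i t j - ε i * op Finset.univ (bar i) (bar l) t j) j = 0 :=
    fun j => sub_eq_zero.2 (h j)
  have z2 : ∀ j, (fun j => ε m * op Finset.univ m l t j - ε l * op Finset.univ (bar l) (bar m) t j) j = 0 :=
    fun j => sub_eq_zero.2 (h' j)
  have a1 := MT_zero l i _ z2 j
  have a2 := MT_zero (bar i) (bar l) _ z2 j
  have b1 := MT_zero m l _ z1 j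
  have b2 := MT_zero (bar l) (bar m) _ z1 j
  rw [MT_lin] at a1 a2 b1 b2
  have c1 := op_comm Finset.univ l i m l t j
  have c2 := op_comm Finset.univ l i (bar l) (bar m) t j
  have c3 := op_comm Finset.univ (bar i) (bar l) m l t j
  have c4 := op_comm Finset.univ (bar i) (bar l) (bar l) (bar m) t j
  rw [if_neg him, if_pos rfl] at c1
  rw [if_pos rfl, if_neg hinj] at c4
  have K : ε l * ε m * (op Finset.univ l i (op Finset.univ m l t) j - op Finset.univ m l (op Finset.univ l i t) j) -
      ε l * ε l * (op Finset.univ l i (op Finset.univ (bar l) (bar m) t) j -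
        op Finset.univ (bar l) (bar m) (op Finset.univ l i t) j) -
      ε i * ε m * (op Finset.univ (bar i) (bar l) (op Finset.univ m l t) j -
        op Finset.univ m l (op Finset.univ (bar i) (bar l) t) j) +
      ε i * ε l * (op Finset.univ (bar i) (bar l) (op Finset.univ (bar l) (bar m) t) j -
        op Finset.univ (bar l) (bar m) (op Finset.univ (bar i) (bar l) t) j) = 0 := by
    linear_combination ε l * a1 - ε i * a2 - ε m * b1 + ε l * b2
  rw [c1, c2, c3, c4] at K
  have sl := hsq l
  have si := hsq i
  have sm := hsq m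
  by_cases h1 : i = bar l
  · have h2 : bar l = i := h1.symm
    have h3 : bar i = l := by rw [h1, hbb]
    have h4 : ¬ bar m = l := by
      intro h5
      apply him
      rw [h1, ← h5, hbb]
    have e1 : ε l = - ε i := by rw [← h3, hεb]
    rw [if_pos h1, if_neg h4, if_neg (fun h5 : bar l = m => him (h1.trans h5)), if_pos h3.symm, e1, h2, h3] at K
    rw [h3]
    linear_combination (ε i / 2) * K -
      (ε m * op Finset.univ m i t j - ε i * op Finset.univ l (bar m) t j) * si
  · have h0 : ¬ l = bar i := by
      intro h5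
      apply h1
      rw [h5, hbb]
    by_cases h2 : bar m = l
    · have h3 : bar l = m := by rw [← h2, hbb]
      have e1 : ε l = - ε m := by rw [← h2, hεb]
      rw [if_neg h1, if_pos h2, if_pos h3, if_neg h0, e1, h2, h3] at K
      rw [h2]
      linear_combination (ε m / 2) * K -
        (ε m * op Finset.univ m i t j - ε i * op Finset.univ (bar i) l t j) * sm
    · have h3 : ¬ bar l = m := by
        intro h5
        apply h2
        rw [← h5, hbb]
      rw [if_neg h1, if_neg h2, if_neg h3, if_neg h0] at K
      linear_combination (- ε l) * K -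
        (ε m * op Finset.univ m i t j - ε i * op Finset.univ (bar i) (bar m) t j) * sl

end TLL
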