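import Pool.Agent.Lib.MP_802513_agHI.HA
import Pool.Agent.Lib.MP_021685_agTI.TD
import Pool.Agent.Lib.MP_021685_agTL.LD
import Pool.Agent.Lib.MP_021685_agTW.WD

/-! Definitions used in the statement of `MP_021685_ag.AlmostAllLifts` (number fields: the abelian varieties with one
reduction in the one hundred per cent).  `frobPoly` is defined in `MP_021685_agTI/TD.lean`, `IsFrobField` in
`MP_802513_agHI/HA.lean`, `IsWeil` in `MP_021685_agTW/WD.lean`, `Small` (roots of products of algebraic numbers of small degree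
or with foreign splitting field) in `MP_021685_agTL/LD.lean`.

Dictionary.  `A` is an abelian variety and `Z` a smooth projective variety over a number field, `H = H₁ (A)`, `W` is the dual of
the cohomology of degree `b` of `Z` (`ℓ`-adic, over `ℂ ⊇ ℚ_ℓ`), `Γ` is the Lie algebra of the Zariski closure of the image of the
Galois group in `GL (H) × GL (W)`, `c` its cyclotomic character, `ψ` the Weil pairing for a polarization of `A`. -/

set_option autoImplicit false

namespace TLL

open Polynomial Module Function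

section

variable {H W : Type} [AddCommGroup H] [Module ℂ H] [AddCommGroup W] [Module ℂ W]

/-- `Γ` is a Lie algebra of pairs `(X, Y)` of endomorphisms of `H` and of `W`, and for a non-degenerate alternating form `ψ` on
`H` all the pairs satisfy `ψ (X u, v) + ψ (u, X v) = c (X, Y) ψ (u, v)`. -/
def IsLie (Γ : Submodule ℂ (End ℂ H × End ℂ W)) (c : End ℂ H × End ℂ W → ℂ) : Prop :=
  (∀ p ∈ Γ, ∀ p' ∈ Γ, p * p' - p' * p ∈ Γ) ∧ ∃ ψ : H →ₗ[ℂ] H →ₗ[ℂ] ℂ, (∀ u, ψ u u = 0) ∧
    (∀ u, (∀ v, ψ u v = 0) → u = 0) ∧ ∀ p ∈ Γ, ∀ u v, ψ (p.1 u) v + ψ u (p.1 v) = c p * ψ u v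

/-- `Γ` contains the Frobenius torus of a place, with Frobenius polynomial `P` on `H` and eigenvalues `rho j` on `W` (of the
semisimple part of the Frobenius) which are roots of products of algebraic numbers of degree less than `n` or with a splitting
field without root of `P`: there are bases `e` of `H` and `d` of `W` and complex numbers `lam i`, `rho j` with
`P = ∏ (X - lam i)`, such that `Γ` contains all the pairs of diagonal endomorphisms with entries `x i`, `y j` with
`∑ m i * x i + ∑ l j * y j = 0` for all the relations `∏ lam i ^ m i * ∏ rho j ^ l j = 1`, `m i` and `l j` integers (the Lie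
algebra of the Zariski closure of the group generated by the semisimple part of the Frobenius). -/
def HasFrobenius (Γ : Submodule ℂ (End ℂ H × End ℂ W)) (P : ℤ[X]) (n : ℕ) : Prop :=
  ∃ (ι κ : Type) (_ : Fintype ι) (_ : Fintype κ) (e : Basis ι ℂ H) (d : Basis κ ℂ W) (lam : ι → ℂ) (rho : κ → ℂ),
    P.map (Int.castRingHom ℂ) = ∏ i, (X - C (lam i)) ∧ (∀ j, rho j ≠ 0 ∧ TL.Small P n (rho j)) ∧
    ∀ (x : ι → ℂ) (y : κ → ℂ), (∀ (m : ι → ℤ) (l : κ → ℤ), (∏ i, lam i ^ m i) * ∏ j, rho j ^ l j = 1 →
        ∑ i, (m i : ℂ) * x i + ∑ j, (l j : ℂ) * y j = 0) →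
      ∃ p ∈ Γ, (∀ i, p.1 (e i) = x i • e i) ∧ ∀ j, p.2 (d j) = y j • d j

variable (Γ : Submodule ℂ (End ℂ H × End ℂ W)) (c : End ℂ H × End ℂ W → ℂ)

/-- `T` is a Tate form of weight `k + b`: a `k`-linear form on `H` with values in the dual of `W` on which all the pairs in `Γ`
act as the multiplication by `((k + b) / 2) c`.  (The Tate classes on the products of the powers of `A` and of `Z`.) -/
def IsTate (k b : ℕ) (T : MultilinearMap ℂ (fun _ : Fin k => H) (W →ₗ[ℂ] ℂ)) : Prop :=
  ∀ p ∈ Γ, ∀ v w, 2 * (∑ a, T (update v a (p.1 (v a))) w + T v (p.2 w)) = ((k : ℂ) + b) * c p * T v w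

/-- `β` is a Tate pairing.  (For an abelian variety these are, by the theorem of Faltings, the combinations of classes of
divisors on the powers.) -/
def IsPairing (β : H →ₗ[ℂ] H →ₗ[ℂ] ℂ) : Prop :=
  ∀ p ∈ Γ, ∀ u v, β (p.1 u) v + β u (p.1 v) = c p * β u v

/-- `T (v, w) = χ (w) ∏ β i (v .., v ..)`, with Tate pairings `β i` (the arguments are matched in `m` pairs, `k = 2 m`) and a
Tate form `χ` of weight `b` on `W`. -/
def IsProduct (k b : ℕ) (T : MultilinearMap ℂ (fun _ : Fin k => H) (W →ₗ[ℂ] ℂ)) : Prop :=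
  ∃ (m : ℕ) (e : Fin m ⊕ Fin m ≃ Fin k) (β : Fin m → H →ₗ[ℂ] H →ₗ[ℂ] ℂ) (χ : W →ₗ[ℂ] ℂ),
    (∀ i, IsPairing Γ c (β i)) ∧ (∀ p ∈ Γ, ∀ w, 2 * χ (p.2 w) = (b : ℂ) * c p * χ w) ∧
      ∀ v w, T v w = (∏ i, β i (v (e (Sum.inl i))) (v (e (Sum.inr i)))) * χ w

end

/-- For all Lie algebras `Γ` which contain the Frobenius torus of a place with Frobenius polynomial `P` on `H`, and eigenvalues
on `W` as in `HasFrobenius`: all Tate forms (of all weights) are linear combinations of products of Tate pairings on `H` and of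
one Tate form on `W`.  (`W = ℂ`, with `Y = 0` for all `(X, Y)` in `Γ`: all Tate forms on `H` are linear combinations of
products of Tate pairings.) -/
def Full (P : ℤ[X]) (n : ℕ) : Prop :=
  ∀ (H W : Type) [AddCommGroup H] [Module ℂ H] [AddCommGroup W] [Module ℂ W]
    (Γ : Submodule ℂ (End ℂ H × End ℂ W)) (c : End ℂ H × End ℂ W → ℂ), IsLie Γ c → HasFrobenius Γ P n →
      ∀ (k b : ℕ) (T : MultilinearMap ℂ (fun _ : Fin k => H) (W →ₗ[ℂ] ℂ)), IsTate Γ c k b T →
        T ∈ Submodule.span ℂ {T' : MultilinearMap ℂ (fun _ : Fin k => H) (W →ₗ[ℂ] ℂ) | IsProduct Γ c k b T'}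

/-- `P` has no multiple roots, and its complex roots are the conjugates of Weil numbers `a i` for `Q` in the fields `E i` (`i`
in a set of indices), not supersingular: the characteristic polynomials of the Frobenius of the abelian varieties over a field
with `Q` elements which are isogenous to products of pairwise not isogenous simple abelian varieties with commutative
endomorphism algebra `Q(a i)`. -/
def IsOver (Q : ℕ) {r : ℕ} (E : Fin r → Type) [∀ i, Field (E i)] (P : ℤ[X]) : Prop :=
  (P.map (Int.castRingHom ℂ)).Separable ∧ ∃ (s : Finset (Fin r)) (a : ∀ i, E i), (∀ i ∈ s, TW.IsWeil Q (a i)) ∧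
    ∀ z : ℂ, aeval z P = 0 ↔ ∃ i ∈ s, ∃ φ : E i →+* ℂ, φ (a i) = z

/-- The property of the polynomials `t i`, for all number fields `E i` generated by roots of the `frobPoly q (t i)`:

* the `E i` are CM fields of degree `2 g`, and the product of the `frobPoly q (t i)` is one of the polynomials over the `E i`
  for `q`;
* for all `Q > 1` and all polynomials `P` over the `E i` for `Q`: for every abelian variety `A` over a number field with a
  place with Frobenius polynomial `P`, all Tate classes on the powers of `A` are combinations of products of Tate classes of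
  degree one, and for all varieties `Z` with small or foreign Frobenius eigenvalues at the place there are no new Tate classes
  on the products of the powers of `A` and of `Z` (`Full P (2 * g)`). -/
def AllLift (q g : ℕ) {r : ℕ} (t : Fin r → ℤ[X]) : Prop :=
  ∀ (E : Fin r → Type) [∀ i, Field (E i)] [∀ i, NumberField (E i)], (∀ i, HIA.IsFrobField q (t i) (E i)) →
    (∀ i, NumberField.IsCMField (E i) ∧ finrank ℚ (E i) = 2 * g) ∧ IsOver q E (∏ i, TI.frobPoly q (t i)) ∧
    ∀ (Q : ℕ) (P : ℤ[X]), 1 < Q → IsOver Q E P → Full P (2 * g)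

end TLL
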